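import Pool.Agent.GreatArcs.Final

set_option autoImplicit false

namespace Pool.Agent.Results.MP_4d4852_co.QuarterCircles

/-- The unit sphere of Euclidean 3-space is a disjoint union of closed quarters of great circles:
there is a family of closed great circle arcs of length π / 2, all contained in the sphere,
such that every point of the sphere lies in exactly one of them. -/
theorem result :
    ∃ F : Set (Set (EuclideanSpace ℝ (Fin 3))),
      (∀ a ∈ F, ∃ u v : EuclideanSpace ℝ (Fin 3),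
        ‖u‖ = 1 ∧ ‖v‖ = 1 ∧ inner ℝ u v = (0 : ℝ) ∧
          ∀ p : EuclideanSpace ℝ (Fin 3),
            p ∈ a ↔ ∃ t : ℝ, 0 ≤ t ∧ t ≤ Real.pi / 2 ∧ p = Real.cos t • u + Real.sin t • v) ∧
      (∀ a ∈ F, ∀ p ∈ a, ‖p‖ = 1) ∧
      ∀ p : EuclideanSpace ℝ (Fin 3), ‖p‖ = 1 → ∃! a : Set (EuclideanSpace ℝ (Fin 3)), a ∈ F ∧ p ∈ a := by
  obtain ⟨A, hA, hd, hU⟩ := Pool.Agent.GreatArcs.sphere_splits
  refine ⟨A, fun a ha => ?_, fun a ha p hp => ?_, fun p hp => ?_⟩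
  · obtain ⟨u, v, hu, hv, huv, hE⟩ := hA a ha
    refine ⟨u, v, hu, hv, huv, fun p => ?_⟩
    rw [hE]
    constructor
    · rintro ⟨t, ht, rfl⟩
      exact ⟨t, ht.1, ht.2, rfl⟩
    · rintro ⟨t, h0, h1, rfl⟩
      exact ⟨t, ⟨h0, h1⟩, rfl⟩
  · have : p ∈ ⋃₀ A := ⟨a, ha, hp⟩
    rw [hU] at this
    exact this
  · have : p ∈ ⋃₀ A := by rw [hU]; exact hp
    obtain ⟨a, ha, hpa⟩ := this
    refine ⟨a, ⟨ha, hpa⟩, fun b hb => ?_⟩
    by_contra hne
    exact Set.disjoint_left.mp (hd hb.1 ha hne) hb.2 hpa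

end Pool.Agent.Results.MP_4d4852_co.QuarterCircles
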